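import Pool.Agent.Lib.MP_40a0b6_an.FinalAll

/-!
# Fourier restriction for flat perturbations of `(x₂ - x₁^m)^n` (MP_40a0b6_an)

For all integers `n, m ≥ 2` and every `g` smooth near `0` and flat at `0` there is a neighbourhood
`U` of `0` for which the range of validity of the Stein-Tomas type restriction estimate for the
graph of `φ + g` over `U` is exactly `p' ≥ p'_c`.
The definitions (`FlatAtZero`, `phi`, `pcrit`, `RangeExactly`, `IsCutoff`, `RestrictionEstimate`,
`areaDensity`, `gpt`) are in `Pool/Agent/Lib/MP_40a0b6_an/Defs.lean`.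
-/

set_option autoImplicit false

namespace Pool.Agent.Results.MP_40a0b6_an.FlatPerturbations

open Pool.Agent.FlatRes

theorem result (n m : ℕ) (hn : 2 ≤ n) (hm : 2 ≤ m) (g : ℝ × ℝ → ℝ) (hg : FlatAtZero g) :
    ∃ U : Set (ℝ × ℝ), IsOpen U ∧ (0 : ℝ × ℝ) ∈ U ∧ ContDiffOn ℝ (⊤ : ℕ∞) g U ∧
      RangeExactly U (fun x => phi n m x + g x) (pcrit n m) :=
  main_all n m hn hm g hg

end Pool.Agent.Results.MP_40a0b6_an.FlatPerturbations
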